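import Pool.Agent.Helper54.UN.St

/-!
# UN, module DSJ: the open upper walls are disjoint
-/

set_option autoImplicit false

noncomputable section

namespace Pool.Agent.Helper97.UNC

open Set Filter Topology Pool.Agent.Helper71.UN Pool.Agent.Helper54.UN

private lemma sep {φ : ℂ → ℝ}
    (hφ : ∀ (A B : ℂ) (t : ℝ), φ (A + t * (B - A)) = (1 - t) * φ A + t * φ B)
    {t t' : ℝ} (h0 : 0 < t) (h1 : t < 1) (h0' : 0 < t') (h1' : t' < 1) {A B A' B' : ℂ}
    (h : A + t * (B - A) = A' + t' * (B' - A')) (hA : φ A ≤ 0) (hB : φ B ≤ 0)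
    (hA' : 0 ≤ φ A') (hB' : 0 ≤ φ B') (hne : φ A < 0 ∨ φ B < 0 ∨ 0 < φ A' ∨ 0 < φ B') :
    False := by
  have e := congrArg φ h
  rw [hφ, hφ] at e
  have k1 : (1 - t) * φ A ≤ 0 := mul_nonpos_of_nonneg_of_nonpos (by linarith) hA
  have k2 : t * φ B ≤ 0 := mul_nonpos_of_nonneg_of_nonpos (by linarith) hB
  have k3 : 0 ≤ (1 - t') * φ A' := mul_nonneg (by linarith) hA'
  have k4 : 0 ≤ t' * φ B' := mul_nonneg (by linarith) hB'
  rcases hne with h2 | h2 | h2 | h2
  · have := mul_neg_of_pos_of_neg (show 0 < 1 - t by linarith) h2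
    linarith
  · have := mul_neg_of_pos_of_neg h0 h2
    linarith
  · have := mul_pos (show 0 < 1 - t' by linarith) h2
    linarith
  · have := mul_pos h0' h2
    linarith

private lemma lfm (p q A B : ℂ) (t : ℝ) :
    -lf p q (A + t * (B - A)) = (1 - t) * (-lf p q A) + t * (-lf p q B) := by
  rw [lf_comb]; ring

private lemma dtm (A B : ℂ) (t : ℝ) :
    dt om (A + t * (B - A)) = (1 - t) * dt om A + t * dt om B := by
  simp [dt_eq]; ring

private lemma key (a b τ g : ℂ) (hG : Geo a b τ g) (i i' : Fin 7) (hlt : i < i') (t t' : ℝ)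
    (h0 : 0 < t) (h1 : t < 1) (h0' : 0 < t') (h1' : t' < 1)
    (h : vA τ i + t * (vB a b i - vA τ i) = vA τ i' + t' * (vB a b i' - vA τ i')) : False := by
  have s0 : 0 < Real.sqrt 3 := by have := s3_gt; linarith
  have o1 : dt om 1 < 0 := by
    rw [dt_eq, om_re, om_im]; simp
  have o2 : dt om om = 0 := by rw [dt_eq]; ring
  have o3 : 0 < dt om (-1) := by
    rw [dt_eq, om_re, om_im]; simp
  have e1 : lf a b a = 0 := lf_start a b
  have e2 : lf a b b = 0 := lf_end a b
  have e3 : lf 1 a 1 = 0 := lf_start 1 a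
  have e4 : lf 1 a a = 0 := lf_end 1 a
  have e5 : lf a om a = 0 := lf_start a om
  have e6 : lf a om om = 0 := lf_end a om
  have e7 : lf b om b = 0 := lf_start b om
  have e8 : lf b om om = 0 := lf_end b om
  have e9 : lf τ a τ = 0 := lf_start τ a
  have e10 : lf τ a a = 0 := lf_end τ a
  have oa := hG.oa
  have ob := hG.ob
  have ot := hG.ot
  have gdv := hG.gdv
  have gdo := hG.gdo
  have gdt := hG.gdt
  have f5b := hG.f5b
  have f1t := hG.f1t
  have f1b := hG.f1b
  have f2t := hG.f2t
  have f2a := hG.f2a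
  have g0b := hG.g0b
  fin_cases i <;> fin_cases i' <;> first | exact absurd hlt (by decide) | skip
  · exact sep (φ := lf a om) (lf_comb a om) h0 h1 h0' h1' (A := τ) (B := a) (A' := om) (B' := a)
      h (by linarith) (by linarith) (by linarith) (by linarith) (Or.inl f1t)
  · exact sep (φ := fun x => -lf b om x) (lfm b om) h0 h1 h0' h1' (A := τ) (B := a) (A' := om)
      (B' := b) h (by linarith) (by linarith) (by linarith) (by linarith)
      (Or.inl (by linarith))
  · exact sep (φ := lf τ a) (lf_comb τ a) h0 h1 h0' h1' (A := τ) (B := a) (A' := τ) (B' := b)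
      h (by linarith) (by linarith) (by linarith) (by linarith) (Or.inr (Or.inr (Or.inr g0b)))
  · exact sep (φ := fun x => -lf a b x) (lfm a b) h0 h1 h0' h1' (A := τ) (B := a) (A' := 1)
      (B' := b) h (by linarith) (by linarith) (by linarith) (by linarith)
      (Or.inl (by linarith))
  · exact sep (φ := fun x => -lf a b x) (lfm a b) h0 h1 h0' h1' (A := τ) (B := a) (A' := 1)
      (B' := a) h (by linarith) (by linarith) (by linarith) (by linarith)
      (Or.inl (by linarith))
  · exact sep (φ := dt om) dtm h0 h1 h0' h1' (A := τ) (B := a) (A' := om) (B' := -1)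
      h (by linarith) (by linarith) (by linarith) (by linarith) (Or.inl ot)
  · exact sep (φ := fun x => -lf a om x) (lfm a om) h0 h1 h0' h1' (A := om) (B := a) (A' := om)
      (B' := b) h (by linarith) (by linarith) (by linarith) (by linarith)
      (Or.inr (Or.inr (Or.inr (by linarith))))
  · exact sep (φ := fun x => -lf a om x) (lfm a om) h0 h1 h0' h1' (A := om) (B := a) (A' := τ)
      (B' := b) h (by linarith) (by linarith) (by linarith) (by linarith)
      (Or.inr (Or.inr (Or.inl (by linarith))))
  · exact sep (φ := fun x => -lf a b x) (lfm a b) h0 h1 h0' h1' (A := om) (B := a) (A' := 1)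
      (B' := b) h (by linarith) (by linarith) (by linarith) (by linarith)
      (Or.inl (by linarith))
  · exact sep (φ := fun x => -lf a b x) (lfm a b) h0 h1 h0' h1' (A := om) (B := a) (A' := 1)
      (B' := a) h (by linarith) (by linarith) (by linarith) (by linarith)
      (Or.inl (by linarith))
  · exact sep (φ := dt om) dtm h0 h1 h0' h1' (A := om) (B := a) (A' := om) (B' := -1)
      h (by linarith) (by linarith) (by linarith) (by linarith) (Or.inr (Or.inl oa))
  · exact sep (φ := lf b om) (lf_comb b om) h0 h1 h0' h1' (A := om) (B := b) (A' := τ) (B' := b)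
      h (by linarith) (by linarith) (by linarith) (by linarith) (Or.inr (Or.inr (Or.inl f2t)))
  · exact sep (φ := fun x => -lf a b x) (lfm a b) h0 h1 h0' h1' (A := om) (B := b) (A' := 1)
      (B' := b) h (by linarith) (by linarith) (by linarith) (by linarith)
      (Or.inl (by linarith))
  · exact sep (φ := fun x => -lf a b x) (lfm a b) h0 h1 h0' h1' (A := om) (B := b) (A' := 1)
      (B' := a) h (by linarith) (by linarith) (by linarith) (by linarith)
      (Or.inl (by linarith))
  · exact sep (φ := dt om) dtm h0 h1 h0' h1' (A := om) (B := b) (A' := om) (B' := -1)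
      h (by linarith) (by linarith) (by linarith) (by linarith) (Or.inr (Or.inl ob))
  · exact sep (φ := fun x => -lf a b x) (lfm a b) h0 h1 h0' h1' (A := τ) (B := b) (A' := 1)
      (B' := b) h (by linarith) (by linarith) (by linarith) (by linarith)
      (Or.inl (by linarith))
  · exact sep (φ := fun x => -lf a b x) (lfm a b) h0 h1 h0' h1' (A := τ) (B := b) (A' := 1)
      (B' := a) h (by linarith) (by linarith) (by linarith) (by linarith)
      (Or.inl (by linarith))
  · exact sep (φ := dt om) dtm h0 h1 h0' h1' (A := τ) (B := b) (A' := om) (B' := -1)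
      h (by linarith) (by linarith) (by linarith) (by linarith) (Or.inl ot)
  · exact sep (φ := lf 1 a) (lf_comb 1 a) h0 h1 h0' h1' (A := 1) (B := b) (A' := 1) (B' := a)
      h (by linarith) (by linarith) (by linarith) (by linarith) (Or.inr (Or.inl f5b))
  · exact sep (φ := dt om) dtm h0 h1 h0' h1' (A := 1) (B := b) (A' := om) (B' := -1)
      h (by linarith) (by linarith) (by linarith) (by linarith) (Or.inl o1)
  · exact sep (φ := dt om) dtm h0 h1 h0' h1' (A := 1) (B := a) (A' := om) (B' := -1)
      h (by linarith) (by linarith) (by linarith) (by linarith) (Or.inl o1)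

private lemma imc (A B : ℂ) (t : ℝ) (h0 : 0 < t) (h1 : t < 1) (hA : 0 ≤ A.im) (hB : 0 ≤ B.im)
    (h : 0 < A.im ∨ 0 < B.im) : 0 < (A + t * (B - A)).im := by
  have e : (A + t * (B - A)).im = (1 - t) * A.im + t * B.im := by
    simp; ring
  rw [e]
  have k1 : 0 ≤ (1 - t) * A.im := mul_nonneg (by linarith) hA
  have k2 : 0 ≤ t * B.im := mul_nonneg h0.le hB
  rcases h with h | h
  · have := mul_pos (show 0 < 1 - t by linarith) h
    linarith
  · have := mul_pos h0 h
    linarith

theorem hDSJ : StDSJ := by
  intro a b τ g hG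
  have s0 : 0 < Real.sqrt 3 := by have := s3_gt; linarith
  have i1 : 0 < om.im := by rw [om_im]; linarith
  have ia := hG.ia
  have ib := hG.ib
  have it := hG.it
  refine ⟨?_, ?_⟩
  · intro i t h0 h1
    fin_cases i
    · exact imc τ a t h0 h1 it.le ia.le (Or.inl it)
    · exact imc om a t h0 h1 i1.le ia.le (Or.inl i1)
    · exact imc om b t h0 h1 i1.le ib.le (Or.inl i1)
    · exact imc τ b t h0 h1 it.le ib.le (Or.inl it)
    · exact imc 1 b t h0 h1 (by simp) ib.le (Or.inr ib)
    · exact imc 1 a t h0 h1 (by simp) ia.le (Or.inr ia)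
    · exact imc om (-1) t h0 h1 i1.le (by simp) (Or.inl i1)
  · intro i i' t t' h0 h1 h0' h1' h
    rcases lt_trichotomy i i' with hlt | heq | hlt
    · exact (key a b τ g hG i i' hlt t t' h0 h1 h0' h1' h).elim
    · exact heq
    · exact (key a b τ g hG i' i hlt t' t h0' h1' h0 h1 h.symm).elim

end Pool.Agent.Helper97.UNC
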